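import Mathlib
import Pool.Agent.H68.CRb

/-!
# Layered constructions with blocks (MP_09f43a)
-/

namespace Pool.Agent.H68.BB

open Finset
open Pool.Agent.Results.MP_09f43a_co.MadPartition
open Pool.Agent.H68.CR (Mono)

/-- Disjoint copies of the graphs `X l`. -/
def copies {L U : Type} (X : L → SimpleGraph U) : SimpleGraph (L × U) where
  Adj a b := a.1 = b.1 ∧ (X a.1).Adj a.2 b.2
  symm := ⟨fun a b h => ⟨h.1.symm, by rw [← h.1]; exact h.2.symm⟩⟩
  loopless := ⟨fun _ h => h.2.ne rfl⟩

lemma E2_copies {L U : Type} [Finite L] [Finite U] (X : L → SimpleGraph U)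
    (s : Finset (L × U)) : E2 (copies X) s ≤ ∑ y ∈ s, mad (X y.1) := by
  classical
  have := Fintype.ofFinite L
  have := Fintype.ofFinite U
  let sl : L → Finset U := fun l => univ.filter (fun x => (l, x) ∈ s)
  have key : ∀ f : L × U → ℝ, ∑ a ∈ s, f a = ∑ l : L, ∑ x ∈ sl l, f (l, x) := by
    intro f
    exact Finset.sum_finset_product s univ sl (by rintro ⟨l, x⟩; simp [sl])
  have hE : E2 (copies X) s = ∑ l : L, E2 (X l) (sl l) := by
    unfold E2
    rw [key]
    apply Finset.sum_congr rfl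
    intro l _
    apply Finset.sum_congr rfl
    intro x _
    rw [key]
    rw [Finset.sum_eq_single l]
    · apply Finset.sum_congr rfl
      intro y _
      simp [copies]
    · intro l' _ hne
      apply Finset.sum_eq_zero
      intro y _
      have : ¬ (copies X).Adj (l, x) (l', y) := fun h => hne h.1.symm
      simp [this]
    · intro h
      exact absurd (Finset.mem_univ _) h
  rw [hE, key]
  apply Finset.sum_le_sum
  intro l _
  refine (E2_le_mad (X l) (sl l)).trans (le_of_eq ?_)
  simp [mul_comm]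

/-- The layered extension. -/
def ext {V U L : Type} (F : SimpleGraph V) (X : L → SimpleGraph U) (nb : L × U → Set V) :
    SimpleGraph (V ⊕ (L × U)) where
  Adj a b := match a, b with
    | Sum.inl x, Sum.inl y => F.Adj x y
    | Sum.inl x, Sum.inr y => x ∈ nb y
    | Sum.inr x, Sum.inl y => y ∈ nb x
    | Sum.inr x, Sum.inr y => (copies X).Adj x y
  symm := ⟨by
    rintro (x | x) (y | y) h
    · exact F.symm.symm _ _ h
    · exact h
    · exact h
    · exact (copies X).symm.symm _ _ h⟩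
  loopless := ⟨by
    rintro (x | x) h
    · exact F.loopless.irrefl _ h
    · exact (copies X).loopless.irrefl _ h⟩

lemma mad_ext {V U L : Type} [Finite V] [Finite U] [Finite L] (F : SimpleGraph V)
    (X : L → SimpleGraph U) (nb : L × U → Set V) {M : ℝ} (hM : mad F ≤ M)
    (hX : ∀ y, mad (X y.1) + 2 * ((nb y).ncard : ℝ) ≤ M) : mad (ext F X nb) ≤ M := by
  classical
  have := Fintype.ofFinite V
  have := Fintype.ofFinite L
  have := Fintype.ofFinite U
  have hM0 : 0 ≤ M := (mad_nonneg F).trans hM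
  rw [mad_le_iff _ hM0]
  intro s
  set s1 := s.toLeft with hs1
  set s2 := s.toRight with hs2
  have hsum : ∀ f : V ⊕ (L × U) → ℝ, ∑ a ∈ s, f a
      = ∑ a ∈ s1, f (Sum.inl a) + ∑ a ∈ s2, f (Sum.inr a) := by
    intro f
    rw [← Finset.toLeft_disjSum_toRight (u := s), Finset.sum_disjSum]
  have hcross : ∀ y ∈ s2, ∑ x ∈ s1, (if x ∈ nb y then (1 : ℝ) else 0)
      ≤ ((nb y).ncard : ℝ) := by
    intro y _
    rw [← Finset.sum_filter, Finset.sum_const, nsmul_eq_mul, mul_one]
    have h1 : (s1.filter (fun x => x ∈ nb y)).card ≤ (nb y).ncard := by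
      rw [← Set.ncard_coe_finset]
      apply Set.ncard_le_ncard _ (Set.toFinite _)
      intro x hx
      exact (Finset.mem_filter.mp (Finset.mem_coe.mp hx)).2
    exact_mod_cast h1
  have hE : E2 (ext F X nb) s = E2 F s1 + E2 (copies X) s2
      + 2 * ∑ y ∈ s2, ∑ x ∈ s1, (if x ∈ nb y then (1 : ℝ) else 0) := by
    unfold E2
    rw [hsum]
    simp_rw [hsum]
    rw [Finset.sum_add_distrib, Finset.sum_add_distrib]
    have e1 : ∑ a ∈ s1, ∑ b ∈ s2, (if (ext F X nb).Adj (Sum.inl a) (Sum.inr b) then (1 : ℝ) else 0)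
        = ∑ y ∈ s2, ∑ x ∈ s1, (if x ∈ nb y then (1 : ℝ) else 0) := by
      rw [Finset.sum_comm]
      rfl
    have e2 : ∑ a ∈ s2, ∑ b ∈ s1, (if (ext F X nb).Adj (Sum.inr a) (Sum.inl b) then (1 : ℝ) else 0)
        = ∑ y ∈ s2, ∑ x ∈ s1, (if x ∈ nb y then (1 : ℝ) else 0) := rfl
    rw [e1, e2]
    have e3 : ∑ a ∈ s1, ∑ b ∈ s1, (if (ext F X nb).Adj (Sum.inl a) (Sum.inl b) then (1 : ℝ) else 0)
        = ∑ a ∈ s1, ∑ b ∈ s1, (if F.Adj a b then (1 : ℝ) else 0) := rfl
    have e4 : ∑ a ∈ s2, ∑ b ∈ s2, (if (ext F X nb).Adj (Sum.inr a) (Sum.inr b) then (1 : ℝ) else 0)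
        = ∑ a ∈ s2, ∑ b ∈ s2, (if (copies X).Adj a b then (1 : ℝ) else 0) := rfl
    rw [e3, e4]
    ring
  have h1 : E2 F s1 ≤ M * s1.card :=
    (E2_le_mad F s1).trans (mul_le_mul_of_nonneg_right hM (by positivity))
  have h2 := E2_copies X s2
  have h3 := Finset.sum_le_sum hcross
  have h4 : (s.card : ℝ) = s1.card + s2.card := by
    rw [← Finset.card_toLeft_add_card_toRight (u := s)]
    push_cast
    rfl
  have h5 : ∑ y ∈ s2, (mad (X y.1) + 2 * ((nb y).ncard : ℝ)) ≤ M * s2.card := by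
    refine (Finset.sum_le_sum (fun y _ => hX y)).trans ?_
    rw [Finset.sum_const, nsmul_eq_mul, mul_comm]
  rw [Finset.sum_add_distrib, ← Finset.mul_sum] at h5
  rw [hE, h4]
  nlinarith

/-- The vertices of earlier blocks with a neighbour in block `j`. -/
def nbr {W : Type} (G : SimpleGraph W) (β : W → ℕ) (j : ℕ) : Set W :=
  {w | β w < j ∧ ∃ u, β u = j ∧ G.Adj u w}

/-- The blocks before block `j` are embedded in colour `i`. -/
def Emb {V W : Type} {r : ℕ} (F : SimpleGraph V) (G : SimpleGraph W) (β : W → ℕ)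
    (c : V → Fin r) (i : Fin r) (j : ℕ) : Prop :=
  ∃ f : W → V, (∀ u v, β u < j → β v < j → f u = f v → u = v) ∧
    (∀ u v, β u < j → β v < j → G.Adj u v → F.Adj (f u) (f v)) ∧ ∀ u, β u < j → c (f u) = i

lemma mad_bot_unit : mad (⊥ : SimpleGraph Unit) ≤ 0 := by
  rw [mad_le_iff _ le_rfl]
  intro s
  simp [E2]

theorem stage {W U : Type} [Finite W] [Finite U] (G : SimpleGraph W) (β : W → ℕ) {r : ℕ}
    {M : ℝ} (hM : 0 ≤ M) (X : (Fin r → ℕ) → SimpleGraph U)
    (hX : ∀ t : Fin r → ℕ, ∀ c : U → Fin r,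
      ∃ i, Mono (X t) (G.induce {w | β w = t i}) c i)
    (hm : ∀ t : Fin r → ℕ, mad (X t) + 2 * ∑ i, ((nbr G β (t i)).ncard : ℝ) ≤ M) (τ : ℕ) :
    ∃ (V : Type) (_ : Finite V) (F : SimpleGraph V), mad F ≤ M ∧
      ∀ c : V → Fin r, ∃ t : Fin r → ℕ, ∑ i, t i = τ ∧ ∀ i, Emb F G β c i (t i) := by
  classical
  induction τ with
  | zero =>
    refine ⟨Unit, inferInstance, ⊥, mad_bot_unit.trans hM, ?_⟩
    intro c
    refine ⟨fun _ => 0, by simp, fun i => ⟨fun _ => (), ?_, ?_, ?_⟩⟩
    · intro u v h; exact absurd h (Nat.not_lt_zero _)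
    · intro u v h; exact absurd h (Nat.not_lt_zero _)
    · intro u h; exact absurd h (Nat.not_lt_zero _)
  | succ τ ih =>
    obtain ⟨V, hV, F, hF1, hF2⟩ := ih
    let L : Type := (Fin r → Fin (τ + 1)) × (Fin r → (W → V))
    let tt : L → (Fin r → ℕ) := fun l i => (l.1 i : ℕ)
    let nb : L → Set V := fun l => ⋃ i : Fin r, (l.2 i) '' nbr G β (tt l i)
    have hL : Finite L := inferInstance
    refine ⟨V ⊕ (L × U), inferInstance, ext F (fun l => X (tt l)) (fun y => nb y.1), ?_, ?_⟩
    · refine mad_ext F _ _ hF1 ?_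
      rintro ⟨l, -⟩
      refine le_trans ?_ (hm (tt l))
      have h1 : (nb l).ncard ≤ ∑ i : Fin r, (nbr G β (tt l i)).ncard := by
        calc (nb l).ncard ≤ ∑ i : Fin r, ((l.2 i) '' nbr G β (tt l i)).ncard :=
              Set.ncard_iUnion_le_of_fintype (fun i : Fin r => (l.2 i) '' nbr G β (tt l i))
          _ ≤ ∑ i : Fin r, (nbr G β (tt l i)).ncard :=
              Finset.sum_le_sum fun i _ => Set.ncard_image_le (Set.toFinite _)
      have h2 : ((nb l).ncard : ℝ) ≤ ∑ i : Fin r, ((nbr G β (tt l i)).ncard : ℝ) := by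
        exact_mod_cast h1
      show mad (X (tt l)) + 2 * ((nb l).ncard : ℝ) ≤ _
      linarith
    · intro c
      obtain ⟨t, ht, hE⟩ := hF2 (fun x => c (Sum.inl x))
      choose f hf1 hf2 hf3 using hE
      have htle : ∀ i, t i < τ + 1 := by
        intro i
        have := Finset.single_le_sum (f := t) (fun j _ => Nat.zero_le _) (Finset.mem_univ i)
        omega
      let l : L := (fun i => ⟨t i, htle i⟩, f)
      obtain ⟨i, g, hg1, hg2, hg3⟩ := hX t (fun y => c (Sum.inr (l, y)))
      refine ⟨Function.update t i (t i + 1), ?_, ?_⟩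
      · rw [Finset.sum_update_of_mem (Finset.mem_univ i)]
        have := Finset.add_sum_erase univ t (Finset.mem_univ i)
        rw [Finset.sdiff_singleton_eq_erase]
        omega
      · intro k
        by_cases hk : k = i
        · subst hk
          rw [Function.update_self]
          refine ⟨fun w => if h : β w = t k then Sum.inr (l, g ⟨w, h⟩) else Sum.inl (f k w),
            ?_, ?_, ?_⟩
          · intro u v hu hv huv
            by_cases h1 : β u = t k <;> by_cases h2 : β v = t k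
            · simp only [h1, h2, dif_pos, Sum.inr.injEq, Prod.mk.injEq, true_and] at huv
              exact congrArg Subtype.val (hg1 huv)
            · simp [h1, h2] at huv
            · simp [h1, h2] at huv
            · simp only [h1, h2, dif_neg, not_false_iff, Sum.inl.injEq] at huv
              exact hf1 k u v (by omega) (by omega) huv
          · intro u v hu hv huv
            by_cases h1 : β u = t k <;> by_cases h2 : β v = t k
            · simp only [h1, h2, dif_pos]
              exact ⟨rfl, hg2 ⟨u, h1⟩ ⟨v, h2⟩ huv⟩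
            · simp only [h1, h2, dif_pos, dif_neg, not_false_iff]
              exact Set.mem_iUnion.mpr ⟨k, v, ⟨by show β v < t k; omega, u, h1, huv⟩, rfl⟩
            · simp only [h1, h2, dif_pos, dif_neg, not_false_iff]
              exact Set.mem_iUnion.mpr ⟨k, u, ⟨by show β u < t k; omega, v, h2, huv.symm⟩, rfl⟩
            · simp only [h1, h2, dif_neg, not_false_iff]
              exact hf2 k u v (by omega) (by omega) huv
          · intro u hu
            by_cases h1 : β u = t k
            · simp only [h1, dif_pos]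
              exact hg3 ⟨u, h1⟩
            · simp only [h1, dif_neg, not_false_iff]
              exact hf3 k u (by omega)
        · rw [Function.update_of_ne hk]
          exact ⟨fun w => Sum.inl (f k w), fun u v hu hv h => hf1 k u v hu hv (Sum.inl_injective h),
            fun u v hu hv h => hf2 k u v hu hv h, fun u hu => hf3 k u hu⟩

/-- **The layered bound.** -/
theorem mcr_le_stage {W U : Type} [Finite W] [Finite U] (G : SimpleGraph W) (β : W → ℕ) {r : ℕ}
    (hr : 1 ≤ r) {M : ℝ} (hM : 0 ≤ M) (X : (Fin r → ℕ) → SimpleGraph U)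
    (hX : ∀ t : Fin r → ℕ, ∀ c : U → Fin r,
      ∃ i, Mono (X t) (G.induce {w | β w = t i}) c i)
    (hm : ∀ t : Fin r → ℕ, mad (X t) + 2 * ∑ i, ((nbr G β (t i)).ncard : ℝ) ≤ M) :
    mcr G r ≤ M := by
  classical
  have := Fintype.ofFinite W
  obtain ⟨m, hm'⟩ : ∃ m, ∀ w, β w < m :=
    ⟨univ.sup β + 1, fun w => Nat.lt_succ_of_le (Finset.le_sup (f := β) (Finset.mem_univ w))⟩
  obtain ⟨V, hV, F, hF1, hF2⟩ := stage G β hM X hX hm (r * m)
  refine (mcr_le F G r ?_).trans hF1
  intro c
  obtain ⟨t, ht, hE⟩ := hF2 c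
  have : ∃ i, m ≤ t i := by
    by_contra hcon
    push Not at hcon
    have h0 : (univ : Finset (Fin r)).Nonempty := ⟨⟨0, hr⟩, Finset.mem_univ _⟩
    have h1 : ∑ i, t i < ∑ _i : Fin r, m := Finset.sum_lt_sum_of_nonempty h0 (fun i _ => hcon i)
    simp at h1
    omega
  obtain ⟨i, hi⟩ := this
  obtain ⟨f, hf1, hf2, hf3⟩ := hE i
  have hlt : ∀ w, β w < t i := fun w => (hm' w).trans_le hi
  exact ⟨i, f, fun u v h => hf1 u v (hlt u) (hlt v) h, fun u v h => hf2 u v (hlt u) (hlt v) h,
    fun u => hf3 u (hlt u)⟩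

end Pool.Agent.H68.BB
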