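import Mathlib
import Pool.Agent.H68.BB.Stage

/-!
# Blocks completed to cliques, and blocks contained in a fixed graph (MP_09f43a)
-/

namespace Pool.Agent.H68.BB

open Finset
open Pool.Agent.Results.MP_09f43a_co.MadPartition
open Pool.Agent.H68.CR (Mono mcr_approx)

/-- The cost of the block of `v`: its size minus one plus twice the number of vertices of earlier
blocks with a neighbour in it. -/
noncomputable def bcost {W : Type} (G : SimpleGraph W) (β : W → ℕ) (v : W) : ℕ :=
  ({u | β u = β v}.ncard - 1) + 2 * {w | β w < β v ∧ ∃ u, β u = β v ∧ G.Adj u w}.ncard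

/-- A clique on the first `m` vertices. -/
def clq (K m : ℕ) : SimpleGraph (Fin K) where
  Adj a b := a ≠ b ∧ (a : ℕ) < m ∧ (b : ℕ) < m
  symm := ⟨fun _ _ h => ⟨h.1.symm, h.2.2, h.2.1⟩⟩
  loopless := ⟨fun _ h => h.1 rfl⟩

lemma mad_clq (K m : ℕ) : mad (clq K (m + 1)) ≤ m := by
  classical
  rw [mad_le_iff _ (by positivity)]
  intro s
  unfold E2
  have h : ∀ u ∈ s, ∑ v ∈ s, (if (clq K (m + 1)).Adj u v then (1 : ℝ) else 0) ≤ m := by
    intro u _
    rw [← Finset.sum_filter, Finset.sum_const, nsmul_eq_mul, mul_one]
    by_cases hu : (u : ℕ) < m + 1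
    · have h1 : (s.filter (fun v => (clq K (m + 1)).Adj u v)).card ≤ m := by
        have h2 : (insert u (s.filter (fun v => (clq K (m + 1)).Adj u v))).card ≤ m + 1 := by
          calc _ ≤ (Finset.range (m + 1)).card := by
                apply Finset.card_le_card_of_injOn (fun v : Fin K => (v : ℕ))
                · intro v hv
                  rcases Finset.mem_insert.mp (Finset.mem_coe.mp hv) with rfl | hv
                  · exact Finset.mem_coe.mpr (Finset.mem_range.mpr hu)
                  · exact Finset.mem_coe.mpr (Finset.mem_range.mpr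
                      (Finset.mem_filter.mp hv).2.2.2)
                · intro a _ b _ hab
                  exact Fin.ext hab
            _ = m + 1 := Finset.card_range _
        have h3 : u ∉ s.filter (fun v => (clq K (m + 1)).Adj u v) := by
          intro h
          exact (Finset.mem_filter.mp h).2.1 rfl
        rw [Finset.card_insert_of_notMem h3] at h2
        omega
      exact_mod_cast h1
    · have h1 : s.filter (fun v => (clq K (m + 1)).Adj u v) = ∅ := by
        apply Finset.filter_eq_empty_iff.mpr
        intro v _ hv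
        exact hu hv.2.1
      rw [h1]
      simp
  refine (Finset.sum_le_sum h).trans ?_
  rw [Finset.sum_const, nsmul_eq_mul, mul_comm]

/-- **The clique bound.** -/
theorem mcr_le_blocks {W : Type} [Finite W] (G : SimpleGraph W) (β : W → ℕ) (x : ℕ)
    (h : ∀ v, bcost G β v ≤ x) {r : ℕ} (hr : 1 ≤ r) : mcr G r ≤ r * x := by
  classical
  have := Fintype.ofFinite W
  set s : ℕ → ℕ := fun j => {w | β w = j}.ncard with hs
  have hsW : ∀ j, s j ≤ Nat.card W := by
    intro j
    rw [hs, ← Set.ncard_univ]
    exact Set.ncard_le_ncard (Set.subset_univ _) (Set.toFinite _)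
  set m : (Fin r → ℕ) → ℕ := fun t => ∑ i, (s (t i) - 1) with hm
  set K : ℕ := r * Nat.card W + 1 with hK
  have hmK : ∀ t, m t + 1 ≤ K := by
    intro t
    have : m t ≤ ∑ _i : Fin r, Nat.card W :=
      Finset.sum_le_sum fun i _ => (Nat.sub_le _ _).trans (hsW _)
    rw [Finset.sum_const, Finset.card_univ, Fintype.card_fin, smul_eq_mul] at this
    omega
  refine mcr_le_stage G β hr (U := Fin K) (by positivity) (fun t => clq K (m t + 1)) ?_ ?_
  · intro t c
    let fib : Fin r → Finset (Fin K) := fun i => univ.filter (fun a => (a : ℕ) < m t + 1 ∧ c a = i)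
    have hex : ∃ i, s (t i) ≤ (fib i).card := by
      by_contra hcon
      push Not at hcon
      have h1 : ∑ i, (fib i).card ≤ m t :=
        Finset.sum_le_sum fun i _ => by have := hcon i; omega
      have h2 : ∑ i, (fib i).card
          = (univ.filter (fun a : Fin K => (a : ℕ) < m t + 1)).card := by
        rw [Finset.card_eq_sum_card_fiberwise (f := c) (t := univ) (fun a _ => Finset.mem_univ _)]
        apply Finset.sum_congr rfl
        intro i _
        congr 1
        ext a
        simp [fib]
      have h3 : m t + 1 ≤ (univ.filter (fun a : Fin K => (a : ℕ) < m t + 1)).card := by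
        calc m t + 1 = (univ : Finset (Fin (m t + 1))).card := by simp
          _ ≤ _ := by
            apply Finset.card_le_card_of_injOn
              (fun a : Fin (m t + 1) => (⟨a, a.2.trans_le (hmK t)⟩ : Fin K))
            · intro a _
              exact Finset.mem_coe.mpr (Finset.mem_filter.mpr ⟨Finset.mem_univ _, a.2⟩)
            · intro a _ b _ hab
              simpa [Fin.ext_iff] using hab
      omega
    obtain ⟨i, hi⟩ := hex
    have hcard : Fintype.card {w | β w = t i} ≤ Fintype.card (fib i) := by
      rw [Fintype.card_coe, ← Nat.card_eq_fintype_card]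
      exact hi
    obtain ⟨g⟩ := Function.Embedding.nonempty_of_card_le hcard
    refine ⟨i, fun w => (g w).1, ?_, ?_, ?_⟩
    · intro a b hab
      exact g.injective (Subtype.ext hab)
    · intro a b hab
      have ha := (Finset.mem_filter.mp (g a).2).2
      have hb := (Finset.mem_filter.mp (g b).2).2
      refine ⟨fun h => hab.ne ?_, ha.1, hb.1⟩
      exact g.injective (Subtype.ext h)
    · intro a
      exact (Finset.mem_filter.mp (g a).2).2.2
  · intro t
    have h1 := mad_clq K (m t)
    have h2 : ∀ i, (s (t i) - 1) + 2 * (nbr G β (t i)).ncard ≤ x := by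
      intro i
      by_cases hne : ∃ v, β v = t i
      · obtain ⟨v, hv⟩ := hne
        have := h v
        unfold bcost at this
        rw [hv] at this
        exact this
      · push Not at hne
        have e1 : {w | β w = t i} = ∅ := by
          ext w; simp [hne w]
        have e2 : nbr G β (t i) = ∅ := by
          ext w
          simp only [nbr, Set.mem_setOf_eq, Set.mem_empty_iff_false, iff_false]
          rintro ⟨-, u, hu, -⟩
          exact hne u hu
        simp [hs, e1, e2]
    have h3 : m t + 2 * ∑ i, (nbr G β (t i)).ncard ≤ r * x := by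
      rw [hm, Finset.mul_sum, ← Finset.sum_add_distrib]
      refine (Finset.sum_le_sum (fun i _ => h2 i)).trans ?_
      simp
    have h4 : ((m t : ℕ) : ℝ) + 2 * ∑ i, ((nbr G β (t i)).ncard : ℝ) ≤ r * x := by
      exact_mod_cast h3
    linarith

/-- **The composition bound.** -/
theorem mcr_le_comp_blocks {W Z : Type} [Finite W] [Finite Z] (G : SimpleGraph W)
    (H : SimpleGraph Z) (β : W → ℕ) (b : ℕ)
    (hH : ∀ j, ∃ f : {w | β w = j} → Z, Function.Injective f ∧
      ∀ u v, (G.induce {w | β w = j}).Adj u v → H.Adj (f u) (f v))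
    (hb : ∀ j, (nbr G β j).ncard ≤ b) {r : ℕ} (hr : 1 ≤ r) :
    mcr G r ≤ mcr H r + 2 * r * b := by
  apply le_of_forall_pos_le_add
  intro ε hε
  obtain ⟨n, X, hX, hXm⟩ := mcr_approx H hr hε
  have h0 := mcr_nonneg H r
  refine mcr_le_stage G β hr (U := Fin n) (by positivity) (fun _ => X) ?_ ?_
  · intro t c
    obtain ⟨i, f, hf1, hf2, hf3⟩ := hX c
    obtain ⟨g, hg1, hg2⟩ := hH (t i)
    exact ⟨i, f ∘ g, hf1.comp hg1, fun u v huv => hf2 _ _ (hg2 u v huv), fun u => hf3 _⟩
  · intro t
    have h1 : ∑ i, ((nbr G β (t i)).ncard : ℝ) ≤ ∑ _i : Fin r, (b : ℝ) :=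
      Finset.sum_le_sum fun i _ => by exact_mod_cast hb (t i)
    simp at h1
    linarith

end Pool.Agent.H68.BB
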