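import Mathlib
import Pool.Agent.H68.BB.Clique

/-!
# Closing a monochromatic pair (MP_09f43a)
-/

namespace Pool.Agent.H68.BB

open Finset
open Pool.Agent.Results.MP_09f43a_co.MadPartition
open Pool.Agent.H68.CR (Mono)

/-- `S` with two new adjacent vertices, joined to `a` and `a'` respectively. -/
def clo {W : Type} (S : SimpleGraph W) (a a' : W) : SimpleGraph (W ⊕ Bool) where
  Adj u v := match u, v with
    | Sum.inl x, Sum.inl y => S.Adj x y
    | Sum.inl x, Sum.inr true => x = a
    | Sum.inl x, Sum.inr false => x = a'
    | Sum.inr true, Sum.inl y => y = a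
    | Sum.inr false, Sum.inl y => y = a'
    | Sum.inr x, Sum.inr y => x ≠ y
  symm := ⟨by
    rintro (x | _ | _) (y | _ | _) h
    · exact S.symm.symm _ _ h
    · exact h
    · exact h
    · exact h
    · exact h
    · exact fun h' => h h'.symm
    · exact h
    · exact fun h' => h h'.symm
    · exact h⟩
  loopless := ⟨by
    rintro (x | _ | _) h
    · exact S.loopless.irrefl _ h
    · exact h rfl
    · exact h rfl⟩

lemma mad_top_succ (r : ℕ) : mad (⊤ : SimpleGraph (Fin (r + 1))) ≤ r := by
  refine (mad_mono _ (clq (r + 1) (r + 1)) id Function.injective_id ?_).trans (mad_clq _ _)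
  intro a b hab
  exact ⟨hab, a.2, b.2⟩

theorem stage2 {W Wg : Type} [Finite W] (S : SimpleGraph W) (β : W → ℕ) (m : ℕ)
    (G : SimpleGraph Wg) {r : ℕ} (hβ : ∀ w, β w < m)
    (hblk : ∀ j, ∃ f : {w | β w = j} → Bool, Function.Injective f)
    (hnbr : ∀ j, (nbr S β j).ncard ≤ 1) (at' : Fin (r + 1) → W)
    (hclo : ∀ y y', y ≠ y' → ∃ g : Wg → W ⊕ Bool, Function.Injective g ∧
      ∀ a b, G.Adj a b → (clo S (at' y) (at' y')).Adj (g a) (g b)) (τ : ℕ) :
    ∃ (V : Type) (_ : Finite V) (F : SimpleGraph V), mad F ≤ 3 * r ∧
      ∀ c : V → Fin r, (∃ i, Mono F G c i) ∨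
        ∃ t : Fin r → ℕ, ∑ i, t i = τ ∧ (∀ i, t i ≤ m) ∧ ∀ i, Emb F S β c i (t i) := by
  classical
  induction τ with
  | zero =>
    refine ⟨Unit, inferInstance, ⊥, mad_bot_unit.trans (by positivity), ?_⟩
    intro c
    right
    refine ⟨fun _ => 0, by simp, fun i => Nat.zero_le _, fun i => ⟨fun _ => (), ?_, ?_, ?_⟩⟩
    · intro u v h; exact absurd h (Nat.not_lt_zero _)
    · intro u v h; exact absurd h (Nat.not_lt_zero _)
    · intro u h; exact absurd h (Nat.not_lt_zero _)
  | succ τ ih =>
    obtain ⟨V, hV, F, hF1, hF2⟩ := ih
    let U : Type := Fin (r + 1)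
    let L : Type := (Fin r → Fin (τ + 1)) × (Fin r → (W → V))
    let nb1 : L × U → Fin r → Set V := fun y i =>
      if (y.1.1 i : ℕ) < m then (y.1.2 i) '' nbr S β (y.1.1 i) else {y.1.2 i (at' y.2)}
    let nb : L × U → Set V := fun y => ⋃ i : Fin r, nb1 y i
    have hL : Finite L := inferInstance
    refine ⟨V ⊕ (L × U), inferInstance, ext F (fun _ => (⊤ : SimpleGraph U)) nb, ?_, ?_⟩
    · refine mad_ext F _ _ hF1 ?_
      intro y
      have h0 : ∀ i, (nb1 y i).ncard ≤ 1 := by
        intro i
        simp only [nb1]
        split_ifs
        · exact (Set.ncard_image_le (Set.toFinite _)).trans (hnbr _)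
        · rw [Set.ncard_singleton]
      have h1 : (nb y).ncard ≤ r := by
        calc (nb y).ncard ≤ ∑ i : Fin r, (nb1 y i).ncard :=
              Set.ncard_iUnion_le_of_fintype (fun i : Fin r => nb1 y i)
          _ ≤ ∑ _i : Fin r, 1 := Finset.sum_le_sum fun i _ => h0 i
          _ = r := by simp
      have h2 : ((nb y).ncard : ℝ) ≤ r := by exact_mod_cast h1
      have h3 := mad_top_succ r
      show mad (⊤ : SimpleGraph (Fin (r + 1))) + 2 * ((nb y).ncard : ℝ) ≤ _
      linarith
    · intro c
      rcases hF2 (fun x => c (Sum.inl x)) with ⟨i, f, hf1, hf2, hf3⟩ | ⟨t, ht, htm, hE⟩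
      · left
        exact ⟨i, fun w => Sum.inl (f w), Sum.inl_injective.comp hf1, hf2, hf3⟩
      choose f hf1 hf2 hf3 using hE
      have htle : ∀ i, t i < τ + 1 := by
        intro i
        have := Finset.single_le_sum (f := t) (fun j _ => Nat.zero_le _) (Finset.mem_univ i)
        omega
      let l : L := (fun i => ⟨t i, htle i⟩, f)
      obtain ⟨y, y', hyy, hc⟩ : ∃ y y' : Fin (r + 1), y ≠ y' ∧
          c (Sum.inr (l, y)) = c (Sum.inr (l, y')) :=
        Fintype.exists_ne_map_eq_of_card_lt (fun y : Fin (r + 1) => c (Sum.inr (l, y))) (by simp)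
      set i := c (Sum.inr (l, y)) with hi
      let pr : Bool → Fin (r + 1) := fun b => bif b then y else y'
      have hpr : Function.Injective pr := by
        rintro (_ | _) (_ | _) h
        · rfl
        · exact absurd h.symm hyy
        · exact absurd h hyy
        · rfl
      have hprc : ∀ b, c (Sum.inr (l, pr b)) = i := by
        rintro (_ | _)
        · exact hc.symm
        · rfl
      by_cases him : t i < m
      · right
        obtain ⟨g, hg⟩ := hblk (t i)
        refine ⟨Function.update t i (t i + 1), ?_, ?_, ?_⟩
        · rw [Finset.sum_update_of_mem (Finset.mem_univ i)]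
          have := Finset.add_sum_erase univ t (Finset.mem_univ i)
          rw [Finset.sdiff_singleton_eq_erase]
          omega
        · intro k
          by_cases hk : k = i
          · subst hk
            rw [Function.update_self]
            omega
          · rw [Function.update_of_ne hk]
            exact htm k
        · intro k
          by_cases hk : k = i
          · rw [hk, Function.update_self]
            have hmem : ∀ (u v : W) (b : Bool), β u = t i → β v < t i → S.Adj u v →
                f i v ∈ nb (l, pr b) := by
              intro u v b hu hv huv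
              refine Set.mem_iUnion.mpr ⟨i, ?_⟩
              show f i v ∈ (if t i < m then (f i) '' nbr S β (t i) else {f i (at' (pr b))})
              rw [if_pos him]
              exact ⟨v, ⟨hv, u, hu, huv⟩, rfl⟩
            refine ⟨fun w => if h : β w = t i then Sum.inr (l, pr (g ⟨w, h⟩)) else Sum.inl (f i w),
              ?_, ?_, ?_⟩
            · intro u v hu hv huv
              by_cases h1 : β u = t i <;> by_cases h2 : β v = t i
              · simp only [h1, h2, dif_pos, Sum.inr.injEq, Prod.mk.injEq, true_and] at huv
                exact congrArg Subtype.val (hg (hpr huv))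
              · simp [h1, h2] at huv
              · simp [h1, h2] at huv
              · simp only [h1, h2, dif_neg, not_false_iff, Sum.inl.injEq] at huv
                exact hf1 i u v (by omega) (by omega) huv
            · intro u v hu hv huv
              by_cases h1 : β u = t i <;> by_cases h2 : β v = t i
              · simp only [h1, h2, dif_pos]
                refine ⟨rfl, ?_⟩
                intro h
                have h3 := hg (hpr h)
                exact huv.ne (congrArg Subtype.val h3)
              · simp only [h1, h2, dif_pos, dif_neg, not_false_iff]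
                exact hmem u v _ h1 (by omega) huv
              · simp only [h1, h2, dif_pos, dif_neg, not_false_iff]
                exact hmem v u _ h2 (by omega) huv.symm
              · simp only [h1, h2, dif_neg, not_false_iff]
                exact hf2 i u v (by omega) (by omega) huv
            · intro u hu
              by_cases h1 : β u = t i
              · simp only [h1, dif_pos]
                exact hprc _
              · simp only [h1, dif_neg, not_false_iff]
                exact hf3 i u (by omega)
          · rw [Function.update_of_ne hk]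
            exact ⟨fun w => Sum.inl (f k w),
              fun u v hu hv h => hf1 k u v hu hv (Sum.inl_injective h),
              fun u v hu hv h => hf2 k u v hu hv h, fun u hu => hf3 k u hu⟩
      · left
        have hall : ∀ w, β w < t i := fun w => (hβ w).trans_le (by omega)
        obtain ⟨g, hg1, hg2⟩ := hclo y y' hyy
        let e : W ⊕ Bool → V ⊕ (L × U) := Sum.elim (fun w => Sum.inl (f i w))
          (fun b => Sum.inr (l, pr b))
        have hat : ∀ b, f i (at' (pr b)) ∈ nb (l, pr b) := by
          intro b
          refine Set.mem_iUnion.mpr ⟨i, ?_⟩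
          show f i (at' (pr b)) ∈ (if t i < m then (f i) '' nbr S β (t i) else {f i (at' (pr b))})
          rw [if_neg him]
          exact rfl
        have he1 : Function.Injective e := by
          rintro (u | b) (v | b') h
          · exact congrArg Sum.inl (hf1 i u v (hall u) (hall v) (Sum.inl_injective h))
          · exact absurd h (by simp [e])
          · exact absurd h (by simp [e])
          · have h1 : (l, pr b) = (l, pr b') := Sum.inr_injective h
            exact congrArg Sum.inr (hpr (Prod.mk.inj h1).2)
        have he2 : ∀ u v, (clo S (at' y) (at' y')).Adj u v →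
            (ext F (fun _ => (⊤ : SimpleGraph U)) nb).Adj (e u) (e v) := by
          rintro (u | _ | _) (v | _ | _) h
          · exact hf2 i u v (hall u) (hall v) h
          · have h' : u = at' y' := h
            rw [h']
            exact hat false
          · have h' : u = at' y := h
            rw [h']
            exact hat true
          · have h' : v = at' y' := h
            rw [h']
            exact hat false
          · exact absurd rfl h
          · exact ⟨rfl, fun h' => hyy h'.symm⟩
          · have h' : v = at' y := h
            rw [h']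
            exact hat true
          · exact ⟨rfl, fun h' => hyy h'⟩
          · exact absurd rfl h
        refine ⟨i, fun a => e (g a), he1.comp hg1, fun a b hab => he2 _ _ (hg2 a b hab), ?_⟩
        intro a
        rcases hga : g a with u | b
        · show c (e (g a)) = i
          rw [hga]
          exact hf3 i u (hall u)
        · show c (e (g a)) = i
          rw [hga]
          exact hprc b

/-- **The closing bound.** -/
theorem mcr_le_close {W Wg : Type} [Finite W] (S : SimpleGraph W) (β : W → ℕ)
    (G : SimpleGraph Wg) {r : ℕ} (hr : 1 ≤ r)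
    (hblk : ∀ j, ∃ f : {w | β w = j} → Bool, Function.Injective f)
    (hnbr : ∀ j, (nbr S β j).ncard ≤ 1) (at' : Fin (r + 1) → W)
    (hclo : ∀ y y', y ≠ y' → ∃ g : Wg → W ⊕ Bool, Function.Injective g ∧
      ∀ a b, G.Adj a b → (clo S (at' y) (at' y')).Adj (g a) (g b)) : mcr G r ≤ 3 * r := by
  classical
  have := Fintype.ofFinite W
  obtain ⟨m, hm'⟩ : ∃ m, ∀ w, β w < m :=
    ⟨univ.sup β + 1, fun w => Nat.lt_succ_of_le (Finset.le_sup (f := β) (Finset.mem_univ w))⟩
  obtain ⟨V, hV, F, hF1, hF2⟩ := stage2 S β m G hm' hblk hnbr at' hclo (r * m + 1)
  refine (mcr_le F G r ?_).trans hF1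
  intro c
  rcases hF2 c with h | ⟨t, ht, htm, hE⟩
  · exact h
  · exfalso
    have h1 : ∑ i, t i ≤ ∑ _i : Fin r, m := Finset.sum_le_sum fun i _ => htm i
    rw [Finset.sum_const, Finset.card_univ, Fintype.card_fin, smul_eq_mul] at h1
    omega

end Pool.Agent.H68.BB
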