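import Mathlib
import Pool.Agent.H68.BB.Close

/-!
# Cycles (MP_09f43a)
-/

namespace Pool.Agent.H68.BB

open Finset
open Pool.Agent.Results.MP_09f43a_co.MadPartition
open Pool.Agent.H68.CR (Mono)
open SimpleGraph (cycleGraph)

/-- A spider with `r + 1` legs `1, …, h` and, on every leg, a triangle at the centre. -/
def sp (r h : ℕ) : SimpleGraph (Option (Fin (r + 1) × Fin (h + 1))) where
  Adj u v := match u, v with
    | none, none => False
    | none, some p => (p.2 : ℕ) ≤ 1
    | some p, none => (p.2 : ℕ) ≤ 1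
    | some p, some q => p.1 = q.1 ∧ ((p.2 : ℕ) + 1 = q.2 ∨ (q.2 : ℕ) + 1 = p.2)
  symm := ⟨by
    rintro (_ | p) (_ | q) h
    · exact h
    · exact h
    · exact h
    · exact ⟨h.1.symm, h.2.symm⟩⟩
  loopless := ⟨by
    rintro (_ | p) h
    · exact h
    · rcases h.2 with h | h <;> omega⟩

/-- The block order of the spider. -/
def spb (r h : ℕ) : Option (Fin (r + 1) × Fin (h + 1)) → ℕ
  | none => 0
  | some p => 1 + (p.1 : ℕ) * h + ((p.2 : ℕ) - 1)

lemma divmod {h a b x y : ℕ} (hx : x < h) (hy : y < h) (e : a * h + x = b * h + y) :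
    a = b ∧ x = y := by
  have h1 : (a * h + x) / h = a := by
    rw [mul_comm, Nat.mul_add_div (by omega), Nat.div_eq_of_lt hx, add_zero]
  have h2 : (b * h + y) / h = b := by
    rw [mul_comm, Nat.mul_add_div (by omega), Nat.div_eq_of_lt hy, add_zero]
  have h3 : a = b := by rw [← h1, ← h2, e]
  subst h3
  exact ⟨rfl, by omega⟩

lemma spb_inj {r h : ℕ} (hh : 1 ≤ h) {p q : Fin (r + 1) × Fin (h + 1)}
    (e : spb r h (some p) = spb r h (some q)) : p.1 = q.1 ∧ (p.2 : ℕ) - 1 = (q.2 : ℕ) - 1 := by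
  have hp := p.2.2
  have hq := q.2.2
  have e' : (p.1 : ℕ) * h + ((p.2 : ℕ) - 1) = (q.1 : ℕ) * h + ((q.2 : ℕ) - 1) := by
    simp only [spb] at e
    omega
  obtain ⟨h1, h2⟩ := divmod (by omega) (by omega) e'
  exact ⟨Fin.ext h1, h2⟩

lemma sp_blk {r h : ℕ} (hh : 1 ≤ h) (j : ℕ) :
    ∃ f : {w | spb r h w = j} → Bool, Function.Injective f := by
  refine ⟨fun w => match w.1 with
    | none => false
    | some p => decide ((p.2 : ℕ) = 0), ?_⟩
  rintro ⟨(_ | p), hu⟩ ⟨(_ | q), hv⟩ huv
  · rfl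
  · exfalso
    simp only [Set.mem_ofPred_eq, spb] at hu hv
    omega
  · exfalso
    simp only [Set.mem_ofPred_eq, spb] at hu hv
    omega
  · have h1 := spb_inj hh (hu.trans hv.symm)
    have h2 : ((p.2 : ℕ) = 0) = ((q.2 : ℕ) = 0) := by
      simpa using huv
    have h3 : (p.2 : ℕ) = q.2 := by
      have h4 := h1.2
      by_cases h5 : (p.2 : ℕ) = 0
      · have : (q.2 : ℕ) = 0 := h2 ▸ h5
        omega
      · have : ¬ (q.2 : ℕ) = 0 := fun h6 => h5 (h2.symm ▸ h6)
        omega
    exact Subtype.ext (congrArg some (Prod.ext h1.1 (Fin.ext h3)))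

lemma sp_nbr {r h : ℕ} (hh : 1 ≤ h) (j : ℕ) : (nbr (sp r h) (spb r h) j).ncard ≤ 1 := by
  rw [Set.ncard_le_one (Set.toFinite _)]
  have key : ∀ w ∈ nbr (sp r h) (spb r h) j, ∃ p : Fin (r + 1) × Fin (h + 1),
      spb r h (some p) = j ∧ ((w = none ∧ (p.2 : ℕ) ≤ 1) ∨
        ∃ q : Fin (r + 1) × Fin (h + 1), w = some q ∧ q.1 = p.1 ∧ (q.2 : ℕ) + 1 = p.2 ∧
          1 ≤ (q.2 : ℕ)) := by
    rintro w ⟨h1, u, h2, h3⟩
    rcases u with _ | p
    · simp only [spb] at h2
      omega
    · refine ⟨p, h2, ?_⟩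
      rcases w with _ | q
      · exact Or.inl ⟨rfl, h3⟩
      · right
        obtain ⟨h4, h5⟩ := h3
        refine ⟨q, rfl, h4.symm, ?_⟩
        simp only [spb] at h1 h2
        rw [h4] at h2
        rcases h5 with h5 | h5
        · omega
        · constructor
          · omega
          · omega
  intro w hw w' hw'
  obtain ⟨p, hp, hp'⟩ := key w hw
  obtain ⟨p', hp1, hp2⟩ := key w' hw'
  obtain ⟨e1, e2⟩ := spb_inj hh (hp.trans hp1.symm)
  rcases hp' with ⟨h1, h2⟩ | ⟨q, h1, h2, h3, h4⟩
  · rcases hp2 with ⟨h5, h6⟩ | ⟨q', h5, h6, h7, h8⟩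
    · rw [h1, h5]
    · omega
  · rcases hp2 with ⟨h5, h6⟩ | ⟨q', h5, h6, h7, h8⟩
    · omega
    · rw [h1, h5]
      congr 1
      refine Prod.ext ?_ (Fin.ext ?_)
      · rw [h2, h6, e1]
      · omega

/-- A number as an element of `Fin (h + 1)`. -/
def fn (h x : ℕ) : Fin (h + 1) := ⟨min x h, by omega⟩

/-- The closing cycle. -/
def cyc (r h ε : ℕ) (y y' : Fin (r + 1)) (k : ℕ) :
    Option (Fin (r + 1) × Fin (h + 1)) ⊕ Bool :=
  if k = 0 then Sum.inr true
  else if k < h + 1 + ε then Sum.inl (some (y, fn h (h + 1 - k)))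
  else if k = h + 1 + ε then Sum.inl none
  else if k < 2 * h + 2 + ε then Sum.inl (some (y', fn h (k - (h + 1 + ε))))
  else Sum.inr false

lemma cyc_inj {r h ε : ℕ} (hε : ε ≤ 1) {y y' : Fin (r + 1)} (hy : y ≠ y') {k k' : ℕ}
    (hk : k < 2 * h + 3 + ε) (hk' : k' < 2 * h + 3 + ε)
    (e : cyc r h ε y y' k = cyc r h ε y y' k') : k = k' := by
  unfold cyc at e
  split_ifs at e <;>
    simp only [Sum.inl.injEq, Sum.inr.injEq, Option.some.injEq, Prod.mk.injEq, reduceCtorEq,
      fn, Fin.mk.injEq, true_and, Bool.true_eq_false, Bool.false_eq_true] at e <;>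
    first
      | omega
      | exact absurd e.1 hy
      | exact absurd e.1.symm hy
      | exact e.elim

lemma cyc_adj {r h ε : ℕ} (hh : 1 ≤ h) (hε : ε ≤ 1) (y y' : Fin (r + 1)) {k : ℕ}
    (hk : k + 1 < 2 * h + 3 + ε) :
    (clo (sp r h) (some (y, fn h h)) (some (y', fn h h))).Adj (cyc r h ε y y' k)
      (cyc r h ε y y' (k + 1)) := by
  rcases Nat.eq_zero_or_pos k with rfl | hk0
  · have e1 : cyc r h ε y y' 0 = Sum.inr true := by simp [cyc]
    have e2 : cyc r h ε y y' (0 + 1) = Sum.inl (some (y, fn h h)) := by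
      unfold cyc
      rw [if_neg (by omega), if_pos (by omega)]
      congr 4
    rw [e1, e2]
    rfl
  rcases lt_or_ge (k + 1) (h + 1 + ε) with h1 | h1
  · have e1 : cyc r h ε y y' k = Sum.inl (some (y, fn h (h + 1 - k))) := by
      unfold cyc
      rw [if_neg (by omega), if_pos (by omega)]
    have e2 : cyc r h ε y y' (k + 1) = Sum.inl (some (y, fn h (h + 1 - (k + 1)))) := by
      unfold cyc
      rw [if_neg (by omega), if_pos (by omega)]
    rw [e1, e2]
    refine ⟨rfl, Or.inr ?_⟩
    show min (h + 1 - (k + 1)) h + 1 = min (h + 1 - k) h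
    omega
  rcases Nat.eq_or_lt_of_le h1 with h2 | h2
  · have e1 : cyc r h ε y y' k = Sum.inl (some (y, fn h (h + 1 - k))) := by
      unfold cyc
      rw [if_neg (by omega), if_pos (by omega)]
    have e2 : cyc r h ε y y' (k + 1) = Sum.inl none := by
      unfold cyc
      rw [if_neg (by omega), if_neg (by omega), if_pos (by omega)]
    rw [e1, e2]
    show min (h + 1 - k) h ≤ 1
    omega
  rcases Nat.eq_or_lt_of_le (Nat.lt_succ_iff.mp h2) with h3 | h3
  · have e1 : cyc r h ε y y' k = Sum.inl none := by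
      unfold cyc
      rw [if_neg (by omega), if_neg (by omega), if_pos (by omega)]
    have e2 : cyc r h ε y y' (k + 1) = Sum.inl (some (y', fn h (k + 1 - (h + 1 + ε)))) := by
      unfold cyc
      rw [if_neg (by omega), if_neg (by omega), if_neg (by omega), if_pos (by omega)]
    rw [e1, e2]
    show min (k + 1 - (h + 1 + ε)) h ≤ 1
    omega
  have e1 : cyc r h ε y y' k = Sum.inl (some (y', fn h (k - (h + 1 + ε)))) := by
    unfold cyc
    rw [if_neg (by omega), if_neg (by omega), if_neg (by omega), if_pos (by omega)]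
  rcases lt_or_ge (k + 1) (2 * h + 2 + ε) with h4 | h4
  · have e2 : cyc r h ε y y' (k + 1) = Sum.inl (some (y', fn h (k + 1 - (h + 1 + ε)))) := by
      unfold cyc
      rw [if_neg (by omega), if_neg (by omega), if_neg (by omega), if_pos (by omega)]
    rw [e1, e2]
    refine ⟨rfl, Or.inl ?_⟩
    show min (k - (h + 1 + ε)) h + 1 = min (k + 1 - (h + 1 + ε)) h
    omega
  · have e2 : cyc r h ε y y' (k + 1) = Sum.inr false := by
      unfold cyc
      rw [if_neg (by omega), if_neg (by omega), if_neg (by omega), if_neg (by omega)]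
    rw [e1, e2]
    show some (y', fn h (k - (h + 1 + ε))) = some (y', fn h h)
    congr 2
    apply Fin.ext
    show min (k - (h + 1 + ε)) h = min h h
    omega

lemma sub_one {n : ℕ} {u v : Fin n} (h : (u - v).val = 1) :
    v.val + 1 = u.val ∨ (u.val = 0 ∧ v.val + 1 = n) := by
  have hu := u.2
  have hv := v.2
  rw [Fin.sub_def] at h
  simp only at h
  rcases lt_or_ge (n - v.val + u.val) n with h1 | h1
  · rw [Nat.mod_eq_of_lt h1] at h
    omega
  · rw [Nat.mod_eq_sub_mod h1] at h
    rw [Nat.mod_eq_of_lt (by omega)] at h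
    omega

theorem mcr_cycle_le (n : ℕ) {r : ℕ} (hr : 1 ≤ r) : mcr (cycleGraph n) r ≤ 3 * r := by
  classical
  rcases lt_or_ge n 5 with hn | hn
  · have h := mcr_le_blocks (cycleGraph n) (fun _ => 0) 3 ?_ hr
    · push_cast at h
      linarith
    · intro v
      unfold bcost
      simp
      omega
  · obtain ⟨h, ε, hε, hh, hn'⟩ : ∃ h ε, ε ≤ 1 ∧ 1 ≤ h ∧ n = 2 * h + 3 + ε :=
      ⟨(n - 3) / 2, (n - 3) % 2, by omega, by omega, by omega⟩
    subst hn'
    refine mcr_le_close (sp r h) (spb r h) _ hr (sp_blk hh) (sp_nbr hh)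
      (fun y => some (y, fn h h)) ?_
    intro y y' hy
    refine ⟨fun k => cyc r h ε y y' k, ?_, ?_⟩
    · intro a b hab
      exact Fin.ext (cyc_inj hε hy a.2 b.2 hab)
    · have key : ∀ a b : Fin (2 * h + 3 + ε), (a - b).val = 1 →
          (clo (sp r h) (some (y, fn h h)) (some (y', fn h h))).Adj (cyc r h ε y y' b)
            (cyc r h ε y y' a) := by
        intro a b hab
        rcases sub_one hab with h1 | ⟨h1, h2⟩
        · rw [← h1]
          exact cyc_adj hh hε y y' (by have := a.2; omega)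
        · have e1 : cyc r h ε y y' a = Sum.inr true := by simp [cyc, h1]
          have e2 : cyc r h ε y y' b = Sum.inr false := by
            unfold cyc
            rw [if_neg (by omega), if_neg (by omega), if_neg (by omega), if_neg (by omega)]
          rw [e1, e2]
          show false ≠ true
          decide
      intro a b hab
      rw [SimpleGraph.cycleGraph_adj'] at hab
      rcases hab with hab | hab
      · exact (key a b hab).symm
      · exact key b a hab

theorem mcr_cycle_ge {n : ℕ} (hn : 3 ≤ n) {r : ℕ} (hr : 1 ≤ r) :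
    2 * r ≤ mcr (cycleGraph n) r := by
  classical
  have h := mcr_lower (cycleGraph n) hr
  obtain ⟨m, rfl⟩ : ∃ m, n = m + 3 := ⟨n - 3, by omega⟩
  have h1 := E2_le_mad (cycleGraph (m + 3)) univ
  have h2 : E2 (cycleGraph (m + 3)) univ = 2 * (m + 3 : ℝ) := by
    unfold E2
    have h3 : ∀ u : Fin (m + 3), ∑ v : Fin (m + 3),
        (if (cycleGraph (m + 3)).Adj u v then (1 : ℝ) else 0) = 2 := by
      intro u
      have h4 := SimpleGraph.cycleGraph_degree_three_le (n := m) (v := u)
      rw [← Finset.sum_filter, Finset.sum_const, nsmul_eq_mul, mul_one]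
      rw [← SimpleGraph.card_neighborFinset_eq_degree, SimpleGraph.neighborFinset_eq_filter] at h4
      exact_mod_cast h4
    calc _ = ∑ _u : Fin (m + 3), (2 : ℝ) := by
          apply Finset.sum_congr rfl
          intro u _
          convert h3 u
      _ = _ := by simp; ring
  rw [h2, Finset.card_univ, Fintype.card_fin] at h1
  push_cast at h1
  have h5 : (0 : ℝ) < m + 3 := by positivity
  have h6 : 2 ≤ mad (cycleGraph (m + 3)) := by
    by_contra hcon
    push Not at hcon
    nlinarith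
  have hr' : (0 : ℝ) ≤ r := by positivity
  nlinarith

end Pool.Agent.H68.BB
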