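import Mathlib
import Pool.Agent.H68.BB.Clique
import Pool.Agent.H68.CRc

/-!
# Copies of a graph joined to a few vertices (MP_09f43a)
-/

namespace Pool.Agent.H68.BB

open Finset Filter Topology
open Pool.Agent.Results.MP_09f43a_co.MadPartition
open Pool.Agent.H68.CR (Mono mcr_approx exists_densest dstar mad_top_le')

/-- `b` independent vertices, all joined to all vertices of `k` disjoint copies of `H`. -/
def jn (b k : ℕ) {Z : Type} (H : SimpleGraph Z) : SimpleGraph (Fin b ⊕ (Fin k × Z)) where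
  Adj u v := match u, v with
    | Sum.inl _, Sum.inl _ => False
    | Sum.inl _, Sum.inr _ => True
    | Sum.inr _, Sum.inl _ => True
    | Sum.inr x, Sum.inr y => x.1 = y.1 ∧ H.Adj x.2 y.2
  symm := ⟨by
    rintro (x | x) (y | y) h
    · exact h
    · trivial
    · trivial
    · exact ⟨h.1.symm, h.2.symm⟩⟩
  loopless := ⟨by
    rintro (x | x) h
    · exact h
    · exact h.2.ne rfl⟩

/-- The block order for `jn`. -/
def jb (b k : ℕ) (Z : Type) : Fin b ⊕ (Fin k × Z) → ℕ :=
  Sum.elim (fun a => (a : ℕ)) (fun p => b + p.1)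

lemma jb_nbr {b k : ℕ} {Z : Type} (H : SimpleGraph Z) (j : ℕ) :
    nbr (jn b k H) (jb b k Z) j ⊆ Set.range Sum.inl := by
  rintro (w | ⟨i, x⟩) ⟨h1, u, h2, h3⟩
  · exact ⟨w, rfl⟩
  · exfalso
    rcases u with u | ⟨i', y⟩
    · simp only [jb, Sum.elim_inl, Sum.elim_inr] at h1 h2
      have := u.2
      omega
    · simp only [jb, Sum.elim_inr] at h1 h2
      have h4 : i' = i := h3.1
      subst h4
      omega

lemma ncard_inl (b k : ℕ) (Z : Type) :
    (Set.range (Sum.inl : Fin b → Fin b ⊕ (Fin k × Z))).ncard = b := by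
  rw [← Set.image_univ, Set.ncard_image_of_injective _ Sum.inl_injective, Set.ncard_univ]
  simp

lemma jb_nbr_card {b k : ℕ} {Z : Type} [Finite Z] (H : SimpleGraph Z) (j : ℕ) :
    (nbr (jn b k H) (jb b k Z) j).ncard ≤ b := by
  exact (Set.ncard_le_ncard (jb_nbr H j) (Set.toFinite _)).trans (le_of_eq (ncard_inl b k Z))

theorem jn_upper {b k : ℕ} {Z : Type} [Finite Z] [Nonempty Z] (H : SimpleGraph Z) {r : ℕ}
    (hr : 1 ≤ r) : mcr (jn b k H) r ≤ mcr H r + 2 * r * b := by
  classical
  refine mcr_le_comp_blocks (jn b k H) H (jb b k Z) b ?_ (jb_nbr_card H) hr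
  intro j
  by_cases hj : j < b
  · refine ⟨fun _ => Classical.arbitrary Z, ?_, ?_⟩
    · rintro ⟨u, hu⟩ ⟨v, hv⟩ -
      rcases u with u | ⟨i, x⟩ <;> rcases v with v | ⟨i', y⟩
      · simp only [jb, Set.mem_ofPred_eq, Sum.elim_inl] at hu hv
        exact Subtype.ext (congrArg Sum.inl (Fin.ext (hu.trans hv.symm)))
      · simp only [jb, Set.mem_ofPred_eq, Sum.elim_inr] at hv
        omega
      · simp only [jb, Set.mem_ofPred_eq, Sum.elim_inr] at hu
        omega
      · simp only [jb, Set.mem_ofPred_eq, Sum.elim_inr] at hu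
        omega
    · rintro ⟨u, hu⟩ ⟨v, hv⟩ huv
      exfalso
      rcases u with u | ⟨i, x⟩ <;> rcases v with v | ⟨i', y⟩
      · exact huv
      · simp only [jb, Set.mem_ofPred_eq, Sum.elim_inr] at hv
        omega
      · simp only [jb, Set.mem_ofPred_eq, Sum.elim_inr] at hu
        omega
      · simp only [jb, Set.mem_ofPred_eq, Sum.elim_inr] at hu
        omega
  · refine ⟨fun u => Sum.elim (fun _ => Classical.arbitrary Z) (fun p => p.2) u.1, ?_, ?_⟩
    · rintro ⟨u, hu⟩ ⟨v, hv⟩ huv
      rcases u with u | ⟨i, x⟩ <;> rcases v with v | ⟨i', y⟩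
      · simp only [jb, Set.mem_ofPred_eq, Sum.elim_inl] at hu
        have := u.2
        omega
      · simp only [jb, Set.mem_ofPred_eq, Sum.elim_inl] at hu
        have := u.2
        omega
      · simp only [jb, Set.mem_ofPred_eq, Sum.elim_inl] at hv
        have := v.2
        omega
      · simp only [jb, Set.mem_ofPred_eq, Sum.elim_inr] at hu hv
        simp only [Sum.elim_inr] at huv
        have h1 : i = i' := Fin.ext (by omega)
        subst h1
        subst huv
        rfl
    · rintro ⟨u, hu⟩ ⟨v, hv⟩ huv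
      rcases u with u | ⟨i, x⟩ <;> rcases v with v | ⟨i', y⟩
      · simp only [jb, Set.mem_ofPred_eq, Sum.elim_inl] at hu
        have := u.2
        omega
      · simp only [jb, Set.mem_ofPred_eq, Sum.elim_inl] at hu
        have := u.2
        omega
      · simp only [jb, Set.mem_ofPred_eq, Sum.elim_inl] at hv
        have := v.2
        omega
      · exact huv.2

lemma E2_jn {b k : ℕ} {Z : Type} [Finite Z] (H : SimpleGraph Z) (S : Finset Z) :
    E2 (jn b k H) ((univ : Finset (Fin b)).disjSum ((univ : Finset (Fin k)) ×ˢ S))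
      = 2 * b * (k * S.card) + k * E2 H S := by
  classical
  have h1 : ∀ a : Fin b, ∑ v ∈ (univ : Finset (Fin b)).disjSum ((univ : Finset (Fin k)) ×ˢ S),
      (if (jn b k H).Adj (Sum.inl a) v then (1 : ℝ) else 0) = k * S.card := by
    intro a
    rw [Finset.sum_disjSum]
    have e1 : ∀ x : Fin b, (if (jn b k H).Adj (Sum.inl a) (Sum.inl x) then (1 : ℝ) else 0) = 0 :=
      fun x => if_neg (fun h => h)
    have e2 : ∀ x : Fin k × Z,
        (if (jn b k H).Adj (Sum.inl a) (Sum.inr x) then (1 : ℝ) else 0) = 1 :=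
      fun x => if_pos trivial
    simp only [e1, e2]
    simp
  have h2 : ∀ p : Fin k × Z,
      ∑ v ∈ (univ : Finset (Fin b)).disjSum ((univ : Finset (Fin k)) ×ˢ S),
      (if (jn b k H).Adj (Sum.inr p) v then (1 : ℝ) else 0)
        = b + ∑ y ∈ S, if H.Adj p.2 y then (1 : ℝ) else 0 := by
    intro p
    rw [Finset.sum_disjSum]
    have e1 : ∀ x : Fin b, (if (jn b k H).Adj (Sum.inr p) (Sum.inl x) then (1 : ℝ) else 0) = 1 :=
      fun x => if_pos trivial
    simp only [e1]
    rw [Finset.sum_product, Finset.sum_eq_single p.1]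
    · simp [jn]
    · intro j _ hj
      apply Finset.sum_eq_zero
      intro y _
      exact if_neg (fun h => hj h.1.symm)
    · intro h
      exact absurd (Finset.mem_univ _) h
  unfold E2
  rw [Finset.sum_disjSum]
  simp only [h1, h2]
  rw [Finset.sum_product]
  simp only [Finset.sum_add_distrib, Finset.sum_const, Finset.card_univ, Fintype.card_fin,
    nsmul_eq_mul]
  have e3 : ∑ _x : Fin k, ∑ x ∈ S, ∑ y ∈ S, (if H.Adj x y then (1 : ℝ) else 0)
      = k * ∑ x ∈ S, ∑ y ∈ S, (if H.Adj x y then (1 : ℝ) else 0) := by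
    rw [Finset.sum_const, Finset.card_univ, Fintype.card_fin, nsmul_eq_mul]
  first
    | (rw [e3]; ring)
    | (ring_nf; ring_nf at e3; rw [e3]; try ring)

theorem jn_mad {b k : ℕ} {Z : Type} [Finite Z] [Nonempty Z] (H : SimpleGraph Z) (hk : 1 ≤ k) :
    (mad H + 2 * b) * (k / (k + b)) ≤ mad (jn b k H) := by
  classical
  obtain ⟨S, hS, hE⟩ := exists_densest H
  have h1 := E2_le_mad (jn b k H) ((univ : Finset (Fin b)).disjSum ((univ : Finset (Fin k)) ×ˢ S))
  rw [E2_jn, hE, Finset.card_disjSum, Finset.card_product] at h1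
  simp only [Finset.card_univ, Fintype.card_fin] at h1
  push_cast at h1
  have hk' : (1 : ℝ) ≤ k := by exact_mod_cast hk
  have hS' : (1 : ℝ) ≤ S.card := by exact_mod_cast hS.card_pos
  have hm := mad_nonneg H
  have hb : (0 : ℝ) ≤ b := by positivity
  have hkb : (0 : ℝ) < k + b := by linarith
  have hM := mad_nonneg (jn b k H)
  rw [← mul_div_assoc, div_le_iff₀ hkb]
  have h2 : (S.card : ℝ) * ((mad H + 2 * b) * k) ≤ mad (jn b k H) * (b + k * S.card) := by
    nlinarith
  have h3 : mad (jn b k H) * (b + k * S.card) ≤ S.card * (mad (jn b k H) * (k + b)) := by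
    have : mad (jn b k H) * b ≤ S.card * (mad (jn b k H) * b) := by
      have h0 : 0 ≤ mad (jn b k H) * b := mul_nonneg hM hb
      nlinarith
    nlinarith
  have h4 : (S.card : ℝ) * ((mad H + 2 * b) * k) ≤ S.card * (mad (jn b k H) * (k + b)) :=
    h2.trans h3
  exact le_of_mul_le_mul_left h4 (by linarith)

theorem jn_lower {b k : ℕ} {Z : Type} [Finite Z] [Nonempty Z] (H : SimpleGraph Z) (hk : 1 ≤ k)
    {r : ℕ} (hr : 1 ≤ r) : r * ((mad H + 2 * b) * (k / (k + b))) ≤ mcr (jn b k H) r :=
  (mul_le_mul_of_nonneg_left (jn_mad H hk) (by positivity)).trans (mcr_lower _ hr)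

theorem jn_tendsto (b : ℕ) {Z : Type} [Finite Z] [Nonempty Z] (H : SimpleGraph Z) {r : ℕ}
    (hr : 1 ≤ r) (hH : mcr H r = r * mad H) :
    Tendsto (fun k : ℕ => mcr (jn b k H) r) atTop (𝓝 (r * (mad H + 2 * b))) := by
  have h1 : Tendsto (fun k : ℕ => (r : ℝ) * ((mad H + 2 * b) * (k / (k + b)))) atTop
      (𝓝 (r * (mad H + 2 * b))) := by
    have h := tendsto_natCast_div_add_atTop (𝕜 := ℝ) (b : ℝ)
    have h2 := (h.const_mul (mad H + 2 * b)).const_mul (r : ℝ)
    simpa using h2
  refine tendsto_of_tendsto_of_tendsto_of_le_of_le' h1 tendsto_const_nhds ?_ ?_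
  · filter_upwards [eventually_ge_atTop 1] with k hk
    exact jn_lower H hk hr
  · filter_upwards with k
    refine (jn_upper H hr).trans (le_of_eq ?_)
    rw [hH]; ring

lemma mad_top (s : ℕ) : mad (⊤ : SimpleGraph (Fin (s + 1))) = s := by
  classical
  refine le_antisymm (mad_top_le' s) ?_
  have h := E2_le_mad (⊤ : SimpleGraph (Fin (s + 1))) univ
  have h1 : E2 (⊤ : SimpleGraph (Fin (s + 1))) univ = (s + 1 : ℝ) * s := by
    unfold E2
    have h2 : ∀ u : Fin (s + 1), ∑ v : Fin (s + 1),
        (if (⊤ : SimpleGraph (Fin (s + 1))).Adj u v then (1 : ℝ) else 0) = s := by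
      intro u
      rw [← Finset.sum_filter, Finset.sum_const, nsmul_eq_mul, mul_one]
      have : univ.filter (fun v => (⊤ : SimpleGraph (Fin (s + 1))).Adj u v) = univ.erase u := by
        ext v
        simp [eq_comm]
      rw [this, Finset.card_erase_of_mem (Finset.mem_univ _)]
      simp
    calc _ = ∑ _u : Fin (s + 1), (s : ℝ) := by
          apply Finset.sum_congr rfl
          intro u _
          convert h2 u
      _ = _ := by simp
  rw [h1] at h
  rw [Finset.card_univ, Fintype.card_fin] at h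
  push_cast at h
  have : (0 : ℝ) < s + 1 := by positivity
  nlinarith

lemma mcr_top (s : ℕ) {r : ℕ} (hr : 1 ≤ r) :
    mcr (⊤ : SimpleGraph (Fin (s + 1))) r = r * s := by
  classical
  apply le_antisymm
  · have h := mcr_le_blocks (⊤ : SimpleGraph (Fin (s + 1))) (fun _ => 0) s ?_ hr
    · exact h
    · intro v
      unfold bcost
      simp
  · have h := mcr_lower (⊤ : SimpleGraph (Fin (s + 1))) hr
    rwa [mad_top] at h

end Pool.Agent.H68.BB
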