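import Mathlib
import Pool.Agent.H68.BB.Fam

/-!
# All ratios between the two known bounds (MP_09f43a)
-/

namespace Pool.Agent.H68.BB

open Finset Filter Topology
open Pool.Agent.Results.MP_09f43a_co.MadPartition
open Pool.Agent.H68.CR (dstar)

lemma nb_card (b k s : ℕ) (i : Fin k) (x : Fin (s + 1)) :
    (Set.range (Sum.inl : Fin b → Fin b ⊕ (Fin k × Fin (s + 1))) ∪
      (fun y => Sum.inr (i, y)) '' {y | y ≠ x}).ncard = s + b := by
  classical
  rw [Set.ncard_union_eq _ (Set.toFinite _) (Set.toFinite _), ncard_inl,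
    Set.ncard_image_of_injective]
  · have : {y : Fin (s + 1) | y ≠ x}.ncard = s := by
      rw [Set.ncard_eq_toFinset_card']
      have h : {y : Fin (s + 1) | y ≠ x}.toFinset = univ.erase x := by
        ext y
        simp
      rw [h, Finset.card_erase_of_mem (Finset.mem_univ _)]
      simp
    rw [this, add_comm]
  · intro a c hac
    simpa using hac
  · rw [Set.disjoint_left]
    rintro _ ⟨a, rfl⟩ ⟨y, -, hy⟩
    exact absurd hy (by simp)

lemma jn_dstar_ub {b k s : ℕ} {m : ℕ} (H : (jn b k (⊤ : SimpleGraph (Fin (s + 1)))).Subgraph)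
    (hne : H.verts.Nonempty) (hH : ∀ v ∈ H.verts, m ≤ (H.neighborSet v).ncard) : m ≤ s + b := by
  classical
  by_cases hex : ∃ p, Sum.inr p ∈ H.verts
  · obtain ⟨⟨i, x⟩, hp⟩ := hex
    refine (hH _ hp).trans ?_
    rw [← nb_card b k s i x]
    apply Set.ncard_le_ncard _ (Set.toFinite _)
    intro w hw
    have hadj := H.adj_sub hw
    rcases w with w | ⟨j, y⟩
    · exact Or.inl ⟨w, rfl⟩
    · right
      obtain ⟨h1, h2⟩ := hadj
      have h1' : i = j := h1
      subst h1'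
      exact ⟨y, fun h => h2 h.symm, rfl⟩
  · push Not at hex
    obtain ⟨v, hv⟩ := hne
    have h0 : H.neighborSet v = ∅ := by
      rw [Set.eq_empty_iff_forall_notMem]
      intro w hw
      have hw' : H.Adj v w := hw
      have hwv : w ∈ H.verts := H.edge_vert hw'.symm
      rcases w with w | w
      · rcases v with v | v
        · exact H.adj_sub hw
        · exact hex v hv
      · exact hex w hwv
    have := hH v hv
    rw [h0, Set.ncard_empty] at this
    omega

lemma jn_dstar {b k s : ℕ} (hk : 1 ≤ k) (hks : s + b ≤ k * (s + 1)) :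
    dstar (jn b k (⊤ : SimpleGraph (Fin (s + 1)))) = s + b := by
  classical
  unfold dstar
  have hmem : s + b ∈ {m : ℕ | ∃ H : (jn b k (⊤ : SimpleGraph (Fin (s + 1)))).Subgraph,
      H.verts.Nonempty ∧ ∀ v ∈ H.verts, m ≤ (H.neighborSet v).ncard} := by
    refine ⟨⊤, ⟨Sum.inr (⟨0, hk⟩, 0), trivial⟩, ?_⟩
    rintro (a | ⟨i, x⟩) -
    · have h1 : (Set.range (Sum.inr : Fin k × Fin (s + 1) → Fin b ⊕ (Fin k × Fin (s + 1)))).ncard
          = k * (s + 1) := by
        rw [← Set.image_univ, Set.ncard_image_of_injective _ Sum.inr_injective, Set.ncard_univ]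
        simp
      refine hks.trans (h1.symm.le.trans ?_)
      apply Set.ncard_le_ncard _ (Set.toFinite _)
      rintro _ ⟨p, rfl⟩
      show (jn b k (⊤ : SimpleGraph (Fin (s + 1)))).Adj (Sum.inl a) (Sum.inr p)
      trivial
    · refine (nb_card b k s i x).symm.le.trans ?_
      apply Set.ncard_le_ncard _ (Set.toFinite _)
      rintro w (⟨a, rfl⟩ | ⟨y, hy, rfl⟩)
      · show (jn b k (⊤ : SimpleGraph (Fin (s + 1)))).Adj (Sum.inr (i, x)) (Sum.inl a)
        trivial
      · show (jn b k (⊤ : SimpleGraph (Fin (s + 1)))).Adj (Sum.inr (i, x)) (Sum.inr (i, y))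
        exact ⟨rfl, fun h => hy h.symm⟩
  apply le_antisymm
  · apply csSup_le ⟨_, hmem⟩
    rintro m ⟨H, hne, hH⟩
    exact jn_dstar_ub H hne hH
  · apply le_csSup _ hmem
    refine ⟨s + b, ?_⟩
    rintro m ⟨H, hne, hH⟩
    exact jn_dstar_ub H hne hH

theorem ratio_dense {α : ℝ} (h1 : 1 ≤ α) (h2 : α ≤ 2) {ε : ℝ} (hε : 0 < ε) :
    ∃ (W : Type) (_ : Finite W) (G : SimpleGraph W), 1 ≤ dstar G ∧
      ∀ r : ℕ, 1 ≤ r → |mcr G r - α * (r * dstar G)| ≤ ε * (r * dstar G) := by
  classical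
  obtain ⟨N, hN⟩ : ∃ N : ℕ, 2 / ε < N := exists_nat_gt _
  have hN2 : 2 ≤ ε * N := by
    rw [div_lt_iff₀ hε] at hN
    linarith
  have hN0 : (0 : ℝ) < N := lt_trans (by positivity) hN
  have hN1 : 1 ≤ N := by exact_mod_cast hN0
  set b : ℕ := ⌊(α - 1) * N⌋₊ with hb
  have hα0 : 0 ≤ (α - 1) * (N : ℝ) := mul_nonneg (by linarith) hN0.le
  have hb1 : (b : ℝ) ≤ (α - 1) * N := Nat.floor_le hα0
  have hb2 : (α - 1) * N < b + 1 := Nat.lt_floor_add_one _
  have hbN : (b : ℝ) ≤ N := by nlinarith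
  have hbN' : b ≤ N := by exact_mod_cast hbN
  obtain ⟨s, hs⟩ : ∃ s, s + b = N := ⟨N - b, by omega⟩
  have hsR : (s : ℝ) + b = N := by exact_mod_cast hs
  set k : ℕ := 2 * N * N with hk
  have hk1 : 1 ≤ k := by
    rw [hk]
    nlinarith
  have hkR : (k : ℝ) = 2 * N * N := by rw [hk]; push_cast; ring
  have hks : s + b ≤ k * (s + 1) := by
    rw [hs, hk]
    nlinarith
  refine ⟨_, inferInstance, jn b k (⊤ : SimpleGraph (Fin (s + 1))), ?_, ?_⟩
  · rw [jn_dstar hk1 hks, hs]
    exact hN1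
  · intro r hr
    rw [jn_dstar hk1 hks, hs]
    have hr' : (1 : ℝ) ≤ r := by exact_mod_cast hr
    have hup := jn_upper (b := b) (k := k) (⊤ : SimpleGraph (Fin (s + 1))) hr
    rw [mcr_top s hr] at hup
    have hlo := jn_lower (b := b) (⊤ : SimpleGraph (Fin (s + 1))) hk1 hr
    rw [mad_top] at hlo
    have hb0 : (0 : ℝ) ≤ b := by positivity
    have hs0 : (0 : ℝ) ≤ s := by positivity
    have hk0 : (0 : ℝ) < k + b := by
      have : (1 : ℝ) ≤ k := by exact_mod_cast hk1
      linarith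
    have hq : (s + 2 * b : ℝ) - 1 ≤ (s + 2 * b) * (k / (k + b)) := by
      rw [← mul_div_assoc, le_div_iff₀ hk0, hkR]
      have h3 : (s + 2 * b : ℝ) ≤ 2 * N := by linarith
      nlinarith
    have hlo' : (r : ℝ) * ((s + 2 * b : ℝ) - 1) ≤ mcr (jn b k (⊤ : SimpleGraph (Fin (s + 1)))) r :=
      (mul_le_mul_of_nonneg_left hq (by positivity)).trans hlo
    have h5 : (s + 2 * b : ℝ) ≤ α * N := by nlinarith
    have h6 : α * N - 1 ≤ (s + 2 * b : ℝ) := by nlinarith
    rw [abs_le]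
    constructor
    · nlinarith
    · nlinarith

end Pool.Agent.H68.BB
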