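import Mathlib
import Pool.Agent.H68.BB.Dense

/-!
# The block width (MP_09f43a)
-/

namespace Pool.Agent.H68.BB

open Finset Filter Topology
open Pool.Agent.Results.MP_09f43a_co.MadPartition
open Pool.Agent.H68.CR (dstar dg exists_low)

/-- The block width: the least `x` such that some ordered partition into blocks has all block
costs at most `x`. -/
noncomputable def bw {W : Type} (G : SimpleGraph W) : ℕ :=
  sInf {x : ℕ | ∃ β : W → ℕ, ∀ v, bcost G β v ≤ x}

/-- A degeneracy order. -/
lemma exists_order {W : Type} [Finite W] (G : SimpleGraph W) (n : ℕ) :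
    ∀ T : Set W, T.ncard = n → ∃ β : W → ℕ, (∀ u ∈ T, β u < n) ∧
      (∀ u ∈ T, ∀ v ∈ T, β u = β v → u = v) ∧
      ∀ v ∈ T, {w | w ∈ T ∧ β w < β v ∧ G.Adj v w}.ncard ≤ dstar G := by
  classical
  induction n with
  | zero =>
    intro T hT
    have h0 : T = ∅ := (Set.ncard_eq_zero (Set.toFinite _)).mp hT
    subst h0
    exact ⟨fun _ => 0, by simp, by simp, by simp⟩
  | succ n ih =>
    intro T hT
    have hne : T.Nonempty := by
      rw [← Set.ncard_pos (Set.toFinite _)]
      omega
    obtain ⟨v, hv, hd⟩ := exists_low G T hne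
    have hT' : (T \ {v}).ncard = n := by
      rw [Set.ncard_sdiff_singleton_of_mem hv]
      omega
    obtain ⟨β, h1, h2, h3⟩ := ih (T \ {v}) hT'
    refine ⟨Function.update β v n, ?_, ?_, ?_⟩
    · intro u hu
      by_cases huv : u = v
      · subst huv
        rw [Function.update_self]
        omega
      · rw [Function.update_of_ne huv]
        have := h1 u ⟨hu, huv⟩
        omega
    · intro u hu w hw huw
      by_cases huv : u = v <;> by_cases hwv : w = v
      · rw [huv, hwv]
      · exfalso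
        subst huv
        rw [Function.update_self, Function.update_of_ne hwv] at huw
        have := h1 w ⟨hw, hwv⟩
        omega
      · exfalso
        subst hwv
        rw [Function.update_self, Function.update_of_ne huv] at huw
        have := h1 u ⟨hu, huv⟩
        omega
      · rw [Function.update_of_ne huv, Function.update_of_ne hwv] at huw
        exact h2 u ⟨hu, huv⟩ w ⟨hw, hwv⟩ huw
    · intro u hu
      by_cases huv : u = v
      · subst huv
        refine (Set.ncard_le_ncard ?_ (Set.toFinite _)).trans hd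
        rintro w ⟨hw1, -, hw3⟩
        exact ⟨hw1, hw3⟩
      · refine (Set.ncard_le_ncard ?_ (Set.toFinite _)).trans (h3 u ⟨hu, huv⟩)
        rintro w ⟨hw1, hw2, hw3⟩
        have hwv : w ≠ v := by
          rintro rfl
          rw [Function.update_self, Function.update_of_ne huv] at hw2
          have := h1 u ⟨hu, huv⟩
          omega
        rw [Function.update_of_ne hwv, Function.update_of_ne huv] at hw2
        exact ⟨⟨hw1, hwv⟩, hw2, hw3⟩

lemma two_dstar_mem {W : Type} [Finite W] (G : SimpleGraph W) :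
    2 * dstar G ∈ {x : ℕ | ∃ β : W → ℕ, ∀ v, bcost G β v ≤ x} := by
  classical
  obtain ⟨β, -, h2, h3⟩ := exists_order G _ Set.univ rfl
  refine ⟨β, fun v => ?_⟩
  have e1 : {u | β u = β v} = {v} := by
    ext u
    simp only [Set.mem_ofPred_eq, Set.mem_singleton_iff]
    exact ⟨fun h => h2 u trivial v trivial h, fun h => by rw [h]⟩
  have e2 : {w | β w < β v ∧ ∃ u, β u = β v ∧ G.Adj u w}.ncard ≤ dstar G := by
    refine (Set.ncard_le_ncard ?_ (Set.toFinite _)).trans (h3 v trivial)
    rintro w ⟨hw1, u, hu, hw2⟩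
    have huv : u = v := h2 u trivial v trivial hu
    subst huv
    exact ⟨trivial, hw1, hw2⟩
  unfold bcost
  rw [e1, Set.ncard_singleton]
  omega

lemma bw_le {W : Type} [Finite W] (G : SimpleGraph W) : bw G ≤ 2 * dstar G :=
  Nat.sInf_le (two_dstar_mem G)

lemma bw_spec {W : Type} [Finite W] (G : SimpleGraph W) : ∃ β : W → ℕ, ∀ v, bcost G β v ≤ bw G :=
  Nat.sInf_mem (s := {x : ℕ | ∃ β : W → ℕ, ∀ v, bcost G β v ≤ x}) ⟨_, two_dstar_mem G⟩

theorem mcr_le_bw {W : Type} [Finite W] (G : SimpleGraph W) {r : ℕ} (hr : 1 ≤ r) :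
    mcr G r ≤ r * bw G := by
  obtain ⟨β, hβ⟩ := bw_spec G
  exact mcr_le_blocks G β _ hβ hr

lemma jn_bw {b k s : ℕ} : bw (jn b k (⊤ : SimpleGraph (Fin (s + 1)))) ≤ s + 2 * b := by
  classical
  apply Nat.sInf_le
  refine ⟨jb b k (Fin (s + 1)), ?_⟩
  rintro (a | ⟨i, x⟩)
  · have e1 : {u | jb b k (Fin (s + 1)) u = jb b k (Fin (s + 1)) (Sum.inl a)} = {Sum.inl a} := by
      ext u
      simp only [Set.mem_ofPred_eq, Set.mem_singleton_iff]
      constructor
      · intro h
        rcases u with u | ⟨i, x⟩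
        · simp only [jb, Sum.elim_inl] at h
          exact congrArg Sum.inl (Fin.ext h)
        · simp only [jb, Sum.elim_inl, Sum.elim_inr] at h
          have := a.2
          omega
      · intro h
        rw [h]
    have e2 : nbr (jn b k (⊤ : SimpleGraph (Fin (s + 1)))) (jb b k (Fin (s + 1)))
        (jb b k (Fin (s + 1)) (Sum.inl a)) = ∅ := by
      rw [Set.eq_empty_iff_forall_notMem]
      rintro w ⟨h1, u, h2, h3⟩
      have hu : u = Sum.inl a := by
        have : u ∈ {u | jb b k (Fin (s + 1)) u = jb b k (Fin (s + 1)) (Sum.inl a)} := h2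
        rw [e1] at this
        exact this
      subst hu
      rcases w with w | w
      · exact h3
      · simp only [jb, Sum.elim_inl, Sum.elim_inr] at h1
        have := a.2
        omega
    show ({u | jb b k (Fin (s + 1)) u = jb b k (Fin (s + 1)) (Sum.inl a)}.ncard - 1) +
      2 * (nbr (jn b k (⊤ : SimpleGraph (Fin (s + 1)))) (jb b k (Fin (s + 1)))
        (jb b k (Fin (s + 1)) (Sum.inl a))).ncard ≤ _
    rw [e1, e2, Set.ncard_singleton, Set.ncard_empty]
    omega
  · have e1 : {u | jb b k (Fin (s + 1)) u = jb b k (Fin (s + 1)) (Sum.inr (i, x))}.ncard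
        ≤ s + 1 := by
      have hsub : {u | jb b k (Fin (s + 1)) u = jb b k (Fin (s + 1)) (Sum.inr (i, x))} ⊆
          Set.range (fun y : Fin (s + 1) => (Sum.inr (i, y) : Fin b ⊕ (Fin k × Fin (s + 1)))) := by
        rintro (u | ⟨i', y⟩) hu
        · simp only [jb, Set.mem_ofPred_eq, Sum.elim_inl, Sum.elim_inr] at hu
          have := u.2
          omega
        · simp only [jb, Set.mem_ofPred_eq, Sum.elim_inr] at hu
          have : i' = i := Fin.ext (by omega)
          subst this
          exact ⟨y, rfl⟩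
      refine (Set.ncard_le_ncard hsub (Set.toFinite _)).trans ?_
      rw [← Set.image_univ]
      refine (Set.ncard_image_le (Set.toFinite _)).trans ?_
      rw [Set.ncard_univ]
      simp
    have e2 := jb_nbr_card (b := b) (k := k) (⊤ : SimpleGraph (Fin (s + 1)))
      (jb b k (Fin (s + 1)) (Sum.inr (i, x)))
    show ({u | jb b k (Fin (s + 1)) u = jb b k (Fin (s + 1)) (Sum.inr (i, x))}.ncard - 1) +
      2 * (nbr (jn b k (⊤ : SimpleGraph (Fin (s + 1)))) (jb b k (Fin (s + 1)))
        (jb b k (Fin (s + 1)) (Sum.inr (i, x)))).ncard ≤ _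
    omega

theorem ratio_bw {α : ℝ} (h1 : 1 ≤ α) (h2 : α ≤ 2) {ε : ℝ} (hε : 0 < ε) :
    ∃ (W : Type) (_ : Finite W) (G : SimpleGraph W), 1 ≤ dstar G ∧
      |(bw G : ℝ) - α * dstar G| ≤ ε * dstar G ∧
      ∀ r : ℕ, 1 ≤ r → r * (bw G - ε * dstar G) ≤ mcr G r := by
  classical
  obtain ⟨N, hN⟩ : ∃ N : ℕ, 2 / ε < N := exists_nat_gt _
  have hN2 : 2 ≤ ε * N := by
    rw [div_lt_iff₀ hε] at hN
    linarith
  have hN0 : (0 : ℝ) < N := lt_trans (by positivity) hN
  have hN1 : 1 ≤ N := by exact_mod_cast hN0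
  set b : ℕ := ⌊(α - 1) * N⌋₊ with hb
  have hα0 : 0 ≤ (α - 1) * (N : ℝ) := mul_nonneg (by linarith) hN0.le
  have hb1 : (b : ℝ) ≤ (α - 1) * N := Nat.floor_le hα0
  have hb2 : (α - 1) * N < b + 1 := Nat.lt_floor_add_one _
  have hbN : (b : ℝ) ≤ N := by nlinarith
  have hbN' : b ≤ N := by exact_mod_cast hbN
  obtain ⟨s, hs⟩ : ∃ s, s + b = N := ⟨N - b, by omega⟩
  have hsR : (s : ℝ) + b = N := by exact_mod_cast hs
  set k : ℕ := 2 * N * N with hk
  have hk1 : 1 ≤ k := by
    rw [hk]
    nlinarith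
  have hkR : (k : ℝ) = 2 * N * N := by rw [hk]; push_cast; ring
  have hks : s + b ≤ k * (s + 1) := by
    rw [hs, hk]
    nlinarith
  have hb0 : (0 : ℝ) ≤ b := by positivity
  have hs0 : (0 : ℝ) ≤ s := by positivity
  have hk0 : (0 : ℝ) < k + b := by
    have : (1 : ℝ) ≤ k := by exact_mod_cast hk1
    linarith
  have hq : (s + 2 * b : ℝ) - 1 ≤ (s + 2 * b) * (k / (k + b)) := by
    rw [← mul_div_assoc, le_div_iff₀ hk0, hkR]
    have h3 : (s + 2 * b : ℝ) ≤ 2 * N := by linarith
    nlinarith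
  have hlo' : ∀ r : ℕ, 1 ≤ r →
      (r : ℝ) * ((s + 2 * b : ℝ) - 1) ≤ mcr (jn b k (⊤ : SimpleGraph (Fin (s + 1)))) r := by
    intro r hr
    have hlo := jn_lower (b := b) (⊤ : SimpleGraph (Fin (s + 1))) hk1 hr
    rw [mad_top] at hlo
    exact (mul_le_mul_of_nonneg_left hq (by positivity)).trans hlo
  have hup : (bw (jn b k (⊤ : SimpleGraph (Fin (s + 1)))) : ℝ) ≤ s + 2 * b := by
    exact_mod_cast jn_bw (b := b) (k := k) (s := s)
  have hlow : (s + 2 * b : ℝ) - 1 ≤ bw (jn b k (⊤ : SimpleGraph (Fin (s + 1)))) := by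
    have h3 := (hlo' 1 le_rfl).trans (mcr_le_bw _ le_rfl)
    simpa using h3
  have h5 : (s + 2 * b : ℝ) ≤ α * N := by nlinarith
  have h6 : α * N - 1 ≤ (s + 2 * b : ℝ) := by nlinarith
  refine ⟨_, inferInstance, jn b k (⊤ : SimpleGraph (Fin (s + 1))), ?_, ?_, ?_⟩
  · rw [jn_dstar hk1 hks, hs]
    exact hN1
  · rw [jn_dstar hk1 hks, hs, abs_le]
    constructor
    · linarith
    · linarith
  · intro r hr
    rw [jn_dstar hk1 hks, hs]
    refine le_trans ?_ (hlo' r hr)
    apply mul_le_mul_of_nonneg_left _ (by positivity)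
    linarith

end Pool.Agent.H68.BB
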